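import Pool.Agent.Helper26.AF.Goals3

/-!
# MP_af6c86_pr, project AF, packet FAL
-/

namespace Pool.Agent.Helper74.AF

open Finset Filter Topology Pool.Agent.Helper26.AF

theorem one_sub_le_exp {y : ℝ} (h0 : 0 ≤ y) (h1 : y < 1) : 1 - y ≤ Real.exp (-y - y ^ 2 / 2) := by
  have hs := Real.hasSum_pow_div_log_of_abs_lt_one (x := y) (by rw [abs_of_nonneg h0]; exact h1)
  have h2 : ∑ i ∈ range 2, y ^ (i + 1) / ((i : ℝ) + 1) ≤ -Real.log (1 - y) :=
    sum_le_hasSum (range 2) (fun i _ => by positivity) hs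
  have h3 : ∑ i ∈ range 2, y ^ (i + 1) / ((i : ℝ) + 1) = y + y ^ 2 / 2 := by
    rw [sum_range_succ, sum_range_one]
    norm_num
  rw [h3] at h2
  have h4 : Real.log (1 - y) ≤ -y - y ^ 2 / 2 := by linarith
  exact (Real.log_le_iff_le_exp (by linarith)).1 h4

theorem desc_le (n : ℕ) (hn : 0 < n) (k : ℕ) (hk : k ≤ n) :
    (n.descFactorial k : ℝ) ≤ (n : ℝ) ^ k * Real.exp (-((k : ℝ) * (k - 1) / (2 * n)) -
      ((k : ℝ) - 1) * k * (2 * k - 1) / (12 * (n : ℝ) ^ 2)) := by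
  have hN : (0 : ℝ) < n := by exact_mod_cast hn
  induction k with
  | zero => simp
  | succ k ih =>
    have ihk := ih (by omega)
    have hkn : (k : ℝ) / n < 1 := by
      rw [div_lt_one hN]
      exact_mod_cast hk
    have h1 := one_sub_le_exp (y := (k : ℝ) / n) (by positivity) hkn
    rw [Nat.descFactorial_succ, Nat.cast_mul, Nat.cast_sub (by omega : k ≤ n)]
    have h2 : (n : ℝ) - k = n * (1 - (k : ℝ) / n) := by field_simp
    have h3 : 0 ≤ 1 - (k : ℝ) / n := by linarith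
    calc ((n : ℝ) - k) * (n.descFactorial k : ℝ)
        ≤ (n * Real.exp (-((k : ℝ) / n) - ((k : ℝ) / n) ^ 2 / 2)) *
          ((n : ℝ) ^ k * Real.exp (-((k : ℝ) * (k - 1) / (2 * n)) -
            ((k : ℝ) - 1) * k * (2 * k - 1) / (12 * (n : ℝ) ^ 2))) := by
          rw [h2]
          exact mul_le_mul (mul_le_mul_of_nonneg_left h1 hN.le) ihk (by positivity) (by positivity)
      _ = (n : ℝ) ^ (k + 1) * (Real.exp (-((k : ℝ) / n) - ((k : ℝ) / n) ^ 2 / 2) *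
          Real.exp (-((k : ℝ) * (k - 1) / (2 * n)) -
            ((k : ℝ) - 1) * k * (2 * k - 1) / (12 * (n : ℝ) ^ 2))) := by
          rw [pow_succ]
          ring
      _ = _ := by
          rw [← Real.exp_add]
          congr 2
          push_cast
          field_simp
          ring

theorem goalFAL : StmtFAL := by
  intro l δ hδ hδ1
  refine ⟨Real.exp (1 + 1 / 4 + 36 * |l| ^ 3 / δ ^ 2), Real.exp_pos _, ⌈1 + |l|⌉₊ + 1, ?_⟩
  intro n hn k hk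
  have hn0 : 0 < n := by omega
  have hN : (0 : ℝ) < n := by exact_mod_cast hn0
  have hN1 : (1 : ℝ) ≤ n := by exact_mod_cast hn0
  have hnl : 1 + |l| ≤ (n : ℝ) := by
    have h1 : 1 + |l| ≤ (⌈1 + |l|⌉₊ : ℝ) := Nat.le_ceil _
    have h2 : ((⌈1 + |l|⌉₊ + 1 : ℕ) : ℝ) ≤ (n : ℝ) := by exact_mod_cast hn
    push_cast at h2
    linarith
  obtain ⟨c, hc⟩ : ∃ c : ℝ, c = (n : ℝ) ^ ((1 : ℝ) / 3) := ⟨_, rfl⟩
  have hc3 : c ^ 3 = n := by
    rw [hc, ← Real.rpow_natCast, ← Real.rpow_mul hN.le]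
    norm_num
  have hc1 : 1 ≤ c := by
    rw [hc]
    exact Real.one_le_rpow hN1 (by norm_num)
  have hc0 : 0 < c := by linarith
  obtain ⟨p, hp⟩ : ∃ p : ℝ, p = pc l n := ⟨_, rfl⟩
  have hpc : p = (1 + l / c) / n := by
    rw [hp, hc]
    rfl
  rw [← hp, ← hc]
  have hp1 : p ≤ 1 := by
    rw [hpc, div_le_one hN]
    have h1 : l / c ≤ |l| := by
      rw [div_le_iff₀ hc0]
      have h2 := le_abs_self l
      have h3 := abs_nonneg l
      nlinarith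
    linarith
  obtain ⟨M, hM⟩ : ∃ M : ℕ, M = k * (n - k) + k.choose 2 := ⟨_, rfl⟩
  have hMR : (M : ℝ) = (k : ℝ) * (n - k) + k * (k - 1) / 2 := by
    rw [hM, Nat.cast_add, Nat.cast_mul, Nat.cast_sub hk, Nat.cast_choose_two]
  rw [← hM]
  have hpow : (1 - p) ^ M ≤ Real.exp (-(p * M)) := by
    have h1 : 1 - p ≤ Real.exp (-p) := by
      have := Real.add_one_le_exp (-p)
      linarith
    calc (1 - p) ^ M ≤ (Real.exp (-p)) ^ M := pow_le_pow_left₀ (by linarith) h1 M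
      _ = Real.exp (-(p * M)) := by
        rw [← Real.exp_nat_mul]
        congr 1
        ring
  have hdesc := desc_le n hn0 k hk
  have hk0 : (0 : ℝ) ≤ k := Nat.cast_nonneg k
  have hkn : (k : ℝ) ≤ n := by exact_mod_cast hk
  -- the exponent
  have hx : |l| * (k : ℝ) ^ 2 / (c * n) ≤ δ * (k : ℝ) ^ 3 / (6 * (n : ℝ) ^ 2) +
      36 * |l| ^ 3 / δ ^ 2 := by
    obtain ⟨x, hxd⟩ : ∃ x : ℝ, x = (k : ℝ) / c ^ 2 := ⟨_, rfl⟩
    have hx0 : 0 ≤ x := by rw [hxd]; positivity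
    have e1 : |l| * (k : ℝ) ^ 2 / (c * n) = |l| * x ^ 2 := by
      rw [hxd, ← hc3]
      field_simp
    have e2 : δ * (k : ℝ) ^ 3 / (6 * (n : ℝ) ^ 2) = δ * x ^ 3 / 6 := by
      rw [hxd, ← hc3]
      field_simp
    rw [e1, e2]
    have hl0 := abs_nonneg l
    rcases le_total (6 * |l| / δ) x with h | h
    · have h1 : |l| ≤ δ * x / 6 := by
        rw [div_le_iff₀ hδ] at h
        linarith
      have h2 : |l| * x ^ 2 ≤ δ * x / 6 * x ^ 2 := mul_le_mul_of_nonneg_right h1 (by positivity)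
      have h3 : 0 ≤ 36 * |l| ^ 3 / δ ^ 2 := by positivity
      nlinarith
    · have h1 : x ^ 2 ≤ (6 * |l| / δ) ^ 2 := pow_le_pow_left₀ hx0 h 2
      have h2 : |l| * x ^ 2 ≤ |l| * (6 * |l| / δ) ^ 2 := mul_le_mul_of_nonneg_left h1 hl0
      have h3 : |l| * (6 * |l| / δ) ^ 2 = 36 * |l| ^ 3 / δ ^ 2 := by
        field_simp
        ring
      have h4 : 0 ≤ δ * x ^ 3 / 6 := by positivity
      linarith
  have he : l / c * ((k : ℝ) * (k + 1) / (2 * n)) ≤ |l| * (k : ℝ) ^ 2 / (c * n) := by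
    have h1 : l / c * ((k : ℝ) * (k + 1) / (2 * n)) ≤
        |l| / c * ((k : ℝ) * (k + 1) / (2 * n)) := by
      have := le_abs_self l
      gcongr
    refine h1.trans ?_
    have h2 : (k : ℝ) * (k + 1) ≤ 2 * (k : ℝ) ^ 2 := by
      rcases Nat.eq_zero_or_pos k with h | h
      · rw [h]; simp
      · have : (1 : ℝ) ≤ k := by exact_mod_cast h
        nlinarith
    calc |l| / c * ((k : ℝ) * (k + 1) / (2 * n)) ≤ |l| / c * (2 * (k : ℝ) ^ 2 / (2 * n)) := by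
          gcongr
      _ = |l| * (k : ℝ) ^ 2 / (c * n) := by
          field_simp
  have hk1 : (k : ℝ) / n ≤ 1 := (div_le_one hN).2 hkn
  have hk2 : (k : ℝ) ^ 2 / (4 * (n : ℝ) ^ 2) ≤ 1 / 4 := by
    have h1 : ((k : ℝ) / n) ^ 2 ≤ 1 := pow_le_one₀ (by positivity) hk1
    calc (k : ℝ) ^ 2 / (4 * (n : ℝ) ^ 2) = ((k : ℝ) / n) ^ 2 / 4 := by
          field_simp
      _ ≤ 1 / 4 := by linarith
  have hk3 : 0 ≤ (k : ℝ) / (12 * (n : ℝ) ^ 2) := by positivity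
  have hexp : (-((k : ℝ) * (k - 1) / (2 * n)) -
      ((k : ℝ) - 1) * k * (2 * k - 1) / (12 * (n : ℝ) ^ 2)) + (-(p * M)) ≤
      (1 + 1 / 4 + 36 * |l| ^ 3 / δ ^ 2) + (-(k : ℝ) - (1 - δ) * (k : ℝ) ^ 3 /
        (6 * (n : ℝ) ^ 2) - l * k / c) := by
    have key : (-((k : ℝ) * (k - 1) / (2 * n)) -
        ((k : ℝ) - 1) * k * (2 * k - 1) / (12 * (n : ℝ) ^ 2)) + (-(p * M)) =
        -(k : ℝ) - l * k / c + (k : ℝ) / n + l / c * ((k : ℝ) * (k + 1) / (2 * n)) -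
          (k : ℝ) ^ 3 / (6 * (n : ℝ) ^ 2) + (k : ℝ) ^ 2 / (4 * (n : ℝ) ^ 2) -
          (k : ℝ) / (12 * (n : ℝ) ^ 2) := by
      rw [hMR, hpc]
      field_simp
      ring
    have e3 : (1 - δ) * (k : ℝ) ^ 3 / (6 * (n : ℝ) ^ 2) =
        (k : ℝ) ^ 3 / (6 * (n : ℝ) ^ 2) - δ * (k : ℝ) ^ 3 / (6 * (n : ℝ) ^ 2) := by ring
    rw [key, e3]
    linarith
  calc (n.descFactorial k : ℝ) * (1 - p) ^ M
      ≤ ((n : ℝ) ^ k * Real.exp (-((k : ℝ) * (k - 1) / (2 * n)) -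
        ((k : ℝ) - 1) * k * (2 * k - 1) / (12 * (n : ℝ) ^ 2))) * Real.exp (-(p * M)) :=
        mul_le_mul hdesc hpow (pow_nonneg (by linarith) _) (by positivity)
    _ = (n : ℝ) ^ k * Real.exp ((-((k : ℝ) * (k - 1) / (2 * n)) -
        ((k : ℝ) - 1) * k * (2 * k - 1) / (12 * (n : ℝ) ^ 2)) + (-(p * M))) := by
        rw [Real.exp_add (-((k : ℝ) * (k - 1) / (2 * n)) -
        ((k : ℝ) - 1) * k * (2 * k - 1) / (12 * (n : ℝ) ^ 2)), mul_assoc]
    _ ≤ (n : ℝ) ^ k * Real.exp ((1 + 1 / 4 + 36 * |l| ^ 3 / δ ^ 2) +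
        (-(k : ℝ) - (1 - δ) * (k : ℝ) ^ 3 / (6 * (n : ℝ) ^ 2) - l * k / c)) := by
        gcongr
    _ = _ := by
        rw [Real.exp_add (1 + 1 / 4 + 36 * |l| ^ 3 / δ ^ 2)]
        ring

end Pool.Agent.Helper74.AF
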